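import Mathlib
import Pool.Agent.X68.SubGame

/-!
# MP_bd62ae_co, Q1: an ultimately bipartite subtraction game with an expandable set

For `S = {3, 11, 15}` the game is ultimately bipartite, `S^ex = {3, 9, 11, 15}`, which is
neither `S` nor `{s + 2m : s ∈ S, m ≥ 0}`.
-/

namespace Pool.Agent.Results.MP_bd62ae_co.ThreeElevenFifteen

open Pool.Agent.X68

/-- The game is ultimately bipartite: its period is `2` and from some point on the nim-values
alternate `0, 1, 0, 1, ...`. -/
def UltimatelyBipartite (S : Finset ℕ) : Prop :=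
  IsUltimatePeriod (nimValue S) 2 ∧
    ∃ n₀ : ℕ, ∀ m : ℕ, nimValue S (n₀ + 2 * m) = 0 ∧ nimValue S (n₀ + 2 * m + 1) = 1

/-- The expansion set `S^ex`. -/
def expansion (S : Finset ℕ) : Set ℕ :=
  {s : ℕ | 0 < s ∧ ∀ n : ℕ, nimValue S (n + s) ≠ nimValue S n}

/-- `S^{*p} = {s + m p : s ∈ S, m ≥ 0}`. -/
def starSet (S : Finset ℕ) (p : ℕ) : Set ℕ :=
  {t : ℕ | ∃ s ∈ S, ∃ m : ℕ, t = s + m * p}

/-- `S` is non-expandable: `S^ex = S` or `S^ex = S^{*p}` for the period `p`. -/
def NonExpandable (S : Finset ℕ) : Prop :=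
  expansion S = (S : Set ℕ) ∨ ∃ p, IsUltimatePeriod (nimValue S) p ∧ expansion S = starSet S p

/-- The subtraction set `{3, 11, 15}`. -/
def S₀ : Finset ℕ := {3, 11, 15}

/-- The pre-periodic part of the nim-sequence. -/
def tbl : Array ℕ :=
  #[0,0,0,1,1,1,0,0,0,1,1,1,2,2,0,3,3,1,2,2,0,3,3,1,0,2]

/-- The claimed nim-sequence. -/
def f (n : ℕ) : ℕ := if n < 26 then tbl[n]! else n % 2

theorem f_large {n : ℕ} (h : 26 ≤ n) : f n = n % 2 := by
  unfold f
  rw [if_neg (by omega)]

theorem tab1 : ∀ n < 50, ∀ s ∈ S₀, 0 < s → s ≤ n → f (n - s) ≠ f n := by decide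

theorem tab2 : ∀ n < 50, ∀ k < f n, ∃ s ∈ S₀, 0 < s ∧ s ≤ n ∧ f (n - s) = k := by decide

theorem S₀_le : ∀ s ∈ S₀, s ≤ 15 ∧ s % 2 = 1 := by decide

theorem nimValue_eq (n : ℕ) : nimValue S₀ n = f n := by
  apply nimValue_eq_of_rec
  · intro n s hs h0 hn
    by_cases h : n < 50
    · exact tab1 n h s hs h0 hn
    · obtain ⟨h1, h2⟩ := S₀_le s hs
      rw [f_large (by omega), f_large (by omega)]
      omega
  · intro n m hm
    by_cases h : n < 50
    · exact tab2 n h m hm
    · rw [f_large (by omega)] at hm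
      refine ⟨3, by decide, by norm_num, by omega, ?_⟩
      rw [f_large (by omega)]
      omega

theorem period : IsUltimatePeriod (nimValue S₀) 2 := by
  constructor
  · refine ⟨by norm_num, 26, fun n hn => ?_⟩
    rw [nimValue_eq, nimValue_eq, f_large (by omega), f_large hn]
    omega
  · rintro q ⟨hq1, n₀, hq⟩
    by_contra hlt
    push Not at hlt
    have hq' : q = 1 := by omega
    subst hq'
    have := hq (n₀ + 26) (by omega)
    rw [nimValue_eq, nimValue_eq, f_large (by omega), f_large (by omega)] at this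
    omega

theorem tab3 : ∀ s < 27, (0 < s ∧ s % 2 = 1 ∧ s ≠ 3 ∧ s ≠ 9 ∧ s ≠ 11 ∧ s ≠ 15) →
    ∃ n < 26, f (n + s) = f n := by decide

theorem tab4 : ∀ n < 26, ∀ s ∈ ({3, 9, 11, 15} : Finset ℕ), f (n + s) ≠ f n := by decide

theorem expansion_eq : expansion S₀ = {3, 9, 11, 15} := by
  ext s
  simp only [expansion, Set.mem_ofPred_eq, Set.mem_insert_iff, Set.mem_singleton_iff]
  constructor
  · rintro ⟨h0, h⟩
    by_contra hc
    push Not at hc
    obtain ⟨h3, h9, h11, h15⟩ := hc
    have hodd : s % 2 = 1 := by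
      by_contra he
      have := h 26
      rw [nimValue_eq, nimValue_eq, f_large (by omega), f_large (by omega)] at this
      omega
    by_cases hs : s < 27
    · obtain ⟨n, _, hn⟩ := tab3 s hs ⟨h0, hodd, h3, h9, h11, h15⟩
      have := h n
      rw [nimValue_eq, nimValue_eq] at this
      exact this hn
    · have := h 1
      rw [nimValue_eq, nimValue_eq, f_large (by omega)] at this
      have h1 : f 1 = 0 := by decide
      rw [h1] at this
      omega
  · intro hs
    have hs' : s ∈ ({3, 9, 11, 15} : Finset ℕ) := by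
      simp only [Finset.mem_insert, Finset.mem_singleton]
      exact hs
    refine ⟨by omega, fun n => ?_⟩
    rw [nimValue_eq, nimValue_eq]
    by_cases hn : n < 26
    · exact tab4 n hn s hs'
    · rw [f_large (by omega), f_large (by omega)]
      omega

/-- **Q1 of MP_bd62ae_co is false.**  The subtraction game with the set `S₀ = {3, 11, 15}` is
ultimately bipartite, its expansion set is `{3, 9, 11, 15}`, and so `S₀` is not non-expandable. -/
theorem result :
    (∀ s ∈ S₀, 0 < s) ∧ UltimatelyBipartite S₀ ∧ expansion S₀ = {3, 9, 11, 15} ∧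
    ¬ NonExpandable S₀ ∧
    ¬ (∀ S : Finset ℕ, S.Nonempty → (∀ s ∈ S, 0 < s) → UltimatelyBipartite S →
        NonExpandable S) := by
  have hpos : ∀ s ∈ S₀, 0 < s := by decide
  have hub : UltimatelyBipartite S₀ := by
    refine ⟨period, 26, fun m => ?_⟩
    rw [nimValue_eq, nimValue_eq, f_large (by omega), f_large (by omega)]
    omega
  have hne : ¬ NonExpandable S₀ := by
    rintro (h | ⟨p, hp, h⟩)
    · have h9 : (9 : ℕ) ∈ expansion S₀ := by rw [expansion_eq]; simp
      rw [h] at h9
      have : (9 : ℕ) ∉ S₀ := by decide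
      exact this (by simpa using h9)
    · have hp2 : p = 2 := IsLeast.unique hp period
      subst hp2
      have h5 : (5 : ℕ) ∈ starSet S₀ 2 := ⟨3, by decide, 1, by norm_num⟩
      rw [← h, expansion_eq] at h5
      simp at h5
  exact ⟨hpos, hub, expansion_eq, hne, fun h => hne (h S₀ ⟨3, by decide⟩ hpos hub)⟩

end Pool.Agent.Results.MP_bd62ae_co.ThreeElevenFifteen
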